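import Mathlib
import Pool.Agent.TH285.Ff.Lifo2
import Pool.Agent.TH285.Ff.Level
import Pool.Agent.TH285.Ff.Param
import Pool.Agent.Y782.FF.Stm
import Pool.Agent.Y782.FF.Gen
import Pool.Agent.Y983.FF.GOOD
import Pool.Agent.Y905.FF.Def
import Pool.Agent.Y975.FF.Par
import Pool.Agent.Y693.FF.PAT
/-!
# A finitary factor of an i.i.d. process without finitary factors with continuous transitions

MP_a0cf29_an, question 1: full answer (yes) in a stronger form.

There is a non-trivial process `ν` with two symbols which is a finitary factor of an i.i.d. process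
and such that

* no non-trivial i.i.d. process is a finitary factor of `ν` (the question);
* no process over a finite alphabet with at least two symbols with uniformly positive and continuous
  transition probabilities (i.i.d. processes, Markov chains of any order with positive transitions,
  all `g`-measures with continuous positive `g`) is a finitary factor of `ν`; more generally for no
  finitary factor `ζ` of `ν` and no non-trivial map `f` of its symbols the process `f(x_i)` has this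
  property;
* given any sequence `𝒬` of laws of processes in advance, `ν` can be chosen such that no `f(x_i)` with
  uniformly positive transition probabilities is dominated by the sequence: for some `lam < 1` no
  bound `P[w] lam ^ n ≤ C 𝒬_i[w]`, all words `w` of length `n`, holds.
-/

set_option autoImplicit false

namespace Pool.Agent.Results.MP_a0cf29_an.NoGMeasureFactor

open MeasureTheory

/-- the left shift on two-sided sequences -/
def shift {A : Type} (x : ℤ → A) : ℤ → A := fun i => x (i + 1)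

/-- `μ` is a (stationary) process: a shift-invariant probability measure on `A^ℤ` -/
def IsProcess {A : Type} [MeasurableSpace A] (μ : Measure (ℤ → A)) : Prop :=
  IsProbabilityMeasure μ ∧ MeasurePreserving shift μ μ

/-- the i.i.d. process with one-dimensional marginal `p` -/
noncomputable def iid {B : Type} [MeasurableSpace B] (p : Measure B) : Measure (ℤ → B) :=
  Measure.infinitePi fun _ : ℤ => p

/-- the process `μ` is trivial: a point mass -/
def IsTrivial {A : Type} [MeasurableSpace A] (μ : Measure (ℤ → A)) : Prop :=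
  ∃ x : ℤ → A, μ = Measure.dirac x

/-- `φ` is a finitary factor map from the process `μ` onto the process `ν` -/
structure IsFinitaryFactorMap {A C : Type} [MeasurableSpace A] [MeasurableSpace C]
    (μ : Measure (ℤ → A)) (ν : Measure (ℤ → C)) (φ : (ℤ → A) → ℤ → C) : Prop where
  aemeasurable : AEMeasurable φ μ
  equivariant : ∀ᵐ x ∂μ, φ (shift x) = shift (φ x)
  map_eq : Measure.map φ μ = ν
  finitary : ∀ᵐ x ∂μ, ∃ r : ℕ, ∀ᵐ y ∂μ,
    (∀ i : ℤ, -(r : ℤ) ≤ i → i ≤ (r : ℤ) → y i = x i) → φ y 0 = φ x 0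

/-- the process `ν` is a finitary factor of the process `μ` -/
def IsFinitaryFactor {A C : Type} [MeasurableSpace A] [MeasurableSpace C]
    (ν : Measure (ℤ → C)) (μ : Measure (ℤ → A)) : Prop :=
  ∃ φ : (ℤ → A) → ℤ → C, IsFinitaryFactorMap μ ν φ

/-- the probability of the word `w` (at the places `0, …, n - 1`) under the process `f(x_i)`, where `x`
has law `ζ` -/
noncomputable def wordProb {B : Type} [MeasurableSpace B] (ζ : Measure (ℤ → B)) {N : ℕ}
    (f : B → Fin N) {n : ℕ} (w : Fin n → Fin N) : ℝ :=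
  ζ.real {x | ∀ k : Fin n, f (x ((k : ℕ) : ℤ)) = w k}

/-- the process `f(x_i)` has uniformly positive transition probabilities: after each word the
conditional probability of each of the `N` symbols is at least `h > 0` -/
def PositiveTransitions {B : Type} [MeasurableSpace B] (ζ : Measure (ℤ → B)) {N : ℕ}
    (f : B → Fin N) : Prop :=
  ∃ h : ℝ, 0 < h ∧ ∀ (n : ℕ) (w : Fin (n + 1) → Fin N),
    h * wordProb ζ f (Fin.init w) ≤ wordProb ζ f w

/-- the process `f(x_i)` has continuous transition probabilities: for every `δ > 0` there is `r`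
such that `P(b | u v) ≤ (1 + δ) P(b | v)` for all words `u`, all words `v` of length `r` and all
symbols `b` (the word `w` is `u v b`, the inequality is multiplied out) -/
def ContinuousTransitions {B : Type} [MeasurableSpace B] (ζ : Measure (ℤ → B)) {N : ℕ}
    (f : B → Fin N) : Prop :=
  ∀ δ : ℝ, 0 < δ → ∃ r : ℕ, ∀ (n : ℕ) (w : Fin (n + (r + 1)) → Fin N),
    wordProb ζ f w * wordProb ζ f (fun k : Fin r => w ⟨n + k, by omega⟩) ≤
      (1 + δ) * (wordProb ζ f (fun k : Fin (n + r) => w ⟨k, by omega⟩) *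
        wordProb ζ f (fun k : Fin (r + 1) => w ⟨n + k, by omega⟩))

/-- the process `f(x_i)` is dominated by the sequence `𝒬` of laws: for every `lam < 1` some `𝒬 i`
satisfies `P[w] * lam ^ n ≤ C * 𝒬_i[w]` for all words `w` of all lengths `n` -/
def DominatedBy {B : Type} [MeasurableSpace B] (ζ : Measure (ℤ → B)) {N : ℕ} (f : B → Fin N)
    (𝒬 : ℕ → Measure (ℤ → ℕ)) : Prop :=
  ∀ lam : ℝ, 0 < lam → lam < 1 → ∃ (i : ℕ) (C : ℝ), ∀ (n : ℕ) (w : Fin n → Fin N),
    wordProb ζ f w * lam ^ n ≤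
      C * (𝒬 i).real {x | ∀ k : Fin n, x ((k : ℕ) : ℤ) = ((w k : Fin N) : ℕ)}

open Pool.Agent.TH285.Ff

section general

theorem trivial_of_singleton {B : Type} [Fintype B] [MeasurableSpace B]
    [MeasurableSingletonClass B] (q : Measure B) [IsProbabilityMeasure q] {b : B}
    (hb : q.real {b} = 1) : IsTrivial (iid q) := by
  refine ⟨fun _ => b, ?_⟩
  have h1 : ∀ᵐ y ∂(iid q), y = fun _ => b := by
    have h2 : ∀ᵐ y ∂(iid q), ∀ i : ℤ, y i = b := by
      rw [ae_all_iff]
      intro i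
      rw [ae_iff]
      have h3 := zp_box_inj q (fun _ : Fin 1 => i) (fun a b _ => Subsingleton.elim a b)
        (fun _ => {b}ᶜ) (fun _ => (measurableSet_singleton b).compl)
      have h4 : {ω : ℤ → B | ∀ _ : Fin 1, ω i ∈ ({b}ᶜ : Set B)} = {ω | ¬ ω i = b} := by
        ext ω
        simp
      have h5 : q.real {b}ᶜ = 0 := by
        rw [probReal_compl_eq_one_sub (measurableSet_singleton b), hb, sub_self]
      rw [h4] at h3
      simp only [h5, Finset.univ_unique, Finset.prod_const, Finset.card_singleton, pow_one] at h3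
      rwa [measureReal_def, ENNReal.toReal_eq_zero_iff, or_iff_left (measure_ne_top _ _)] at h3
    filter_upwards [h2] with y hy
    exact funext hy
  have h6 : Measure.map id (iid q) = Measure.map (fun _ => fun _ => b) (iid q) :=
    Measure.map_congr h1
  rw [Measure.map_id, Measure.map_const] at h6
  have h7 : iid q Set.univ = 1 := by
    have : IsProbabilityMeasure (iid q) := by
      unfold iid
      infer_instance
    exact measure_univ
  rw [h7, one_smul] at h6
  exact h6

theorem exists_mid {B : Type} [Fintype B] [MeasurableSpace B]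
    [MeasurableSingletonClass B] (q : Measure B) [IsProbabilityMeasure q]
    (hq : ¬ IsTrivial (iid q)) : ∃ b, 0 < q.real {b} ∧ q.real {b} < 1 := by
  by_contra hne
  push Not at hne
  have h1 : ∀ b, q.real {b} = 0 := by
    intro b
    by_contra h0
    have h2 : 0 < q.real {b} := lt_of_le_of_ne measureReal_nonneg (Ne.symm h0)
    have h3 := hne b h2
    exact hq (trivial_of_singleton q (le_antisymm measureReal_le_one h3))
  have h2 : ∑ b : B, q.real {b} = 1 := by
    rw [sum_measureReal_singleton]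
    simp
  rw [Finset.sum_eq_zero fun b _ => h1 b] at h2
  exact zero_ne_one h2

end general

section law

variable (P : Par)

/-- the law of the output process -/
noncomputable def lawY : Measure (ℤ → Bool) := Measure.map (Y P) mu

instance : IsProbabilityMeasure (lawY P) :=
  Measure.isProbabilityMeasure_map (measurable_Y P).aemeasurable

theorem ae_law {p : (ℤ → Bool) → Prop} (h : ∀ᵐ y ∂(lawY P), p y) : ∀ᵐ ω ∂mu, p (Y P ω) :=
  ae_of_ae_map (measurable_Y P).aemeasurable h

theorem isProcess_law : IsProcess (lawY P) := by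
  refine ⟨inferInstance, ?_, ?_⟩
  · exact measurable_sh 1
  · unfold lawY
    have h1 : Measurable (shift : (ℤ → Bool) → ℤ → Bool) := measurable_sh 1
    rw [Measure.map_map h1 (measurable_Y P)]
    have h2 : (shift ∘ Y P) = Y P ∘ sh 1 := by
      funext ω
      exact (Y_sh P 1 ω).symm
    rw [h2, ← Measure.map_map (measurable_Y P) (measurable_sh 1), (mu_sh 1).map_eq]

theorem mu_coord (n : ℕ) : mu.real {ω : ℤ → ℕ | ω 0 = n} = (1 / 2 : ℝ) ^ (n + 1) := by
  have h3 := zp_box_inj gm (fun _ : Fin 1 => (0 : ℤ)) (fun a b _ => Subsingleton.elim a b)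
    (fun _ => {n}) (fun _ => measurableSet_singleton n)
  have h4 : {ω : ℤ → ℕ | ∀ _ : Fin 1, ω 0 ∈ ({n} : Set ℕ)} = {ω | ω 0 = n} := by
    ext ω
    simp
  rw [h4] at h3
  simp only [gm_real_singleton, Finset.univ_unique, Finset.prod_const, Finset.card_singleton,
    pow_one] at h3
  exact h3

theorem nontrivial_law (h0 : 1 ≤ P.al 0) : ¬ IsTrivial (lawY P) := by
  rintro ⟨x, hx⟩
  have h1 : ∀ᵐ y ∂(lawY P), y = x := by
    rw [hx]
    have : MeasurableSet {y : ℤ → Bool | y = x} := measurableSet_singleton x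
    rw [ae_dirac_iff this]
  have h2 := ae_law P h1
  have h3 : (2 : ℕ) ≤ 2 ^ P.al 0 := by
    calc 2 = 2 ^ 1 := by norm_num
      _ ≤ 2 ^ P.al 0 := Nat.pow_le_pow_right (by norm_num) h0
  have hY : ∀ (n : ℕ), n < 2 → ∀ ω : ℤ → ℕ, ω 0 = n → Y P ω 0 = n.testBit 0 := by
    intro n hn ω hω
    unfold Y
    rw [U_small P (by rw [hω]; omega), hω]
  have hpos : ∀ n : ℕ, n < 2 → x 0 = n.testBit 0 := by
    intro n hn
    by_contra hne
    have h4 : mu.real {ω : ℤ → ℕ | ω 0 = n} ≤ 0 := by
      have h5 : mu {ω : ℤ → ℕ | ω 0 = n} = 0 := by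
        refine measure_mono_null ?_ (ae_iff.1 h2)
        intro ω hω
        rw [Set.mem_ofPred_eq] at hω ⊢
        intro h6
        apply hne
        rw [← h6]
        exact hY n hn ω hω
      rw [measureReal_def, h5]
      simp
    rw [mu_coord] at h4
    have : (0 : ℝ) < (1 / 2) ^ (n + 1) := by positivity
    linarith
  have h4 := hpos 0 (by norm_num)
  have h5 := hpos 1 (by norm_num)
  rw [h4] at h5
  simp at h5

theorem source_factor (hG : ∀ᵐ ω ∂mu, Good P ω) : IsFinitaryFactor (lawY P) (iid us) := by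
  refine ⟨fun s => Y P (lab s), ?_, ?_, ?_, ?_⟩
  · exact ((measurable_Y P).comp measurable_lab).aemeasurable
  · refine Filter.Eventually.of_forall fun s => ?_
    show Y P (lab (sh 1 s)) = sh 1 (Y P (lab s))
    rw [lab_sh, Y_sh]
  · have h1 : (fun s => Y P (lab s)) = Y P ∘ lab := rfl
    have h2 : Measure.map lab (iid us) = mu := map_lab
    rw [h1, ← Measure.map_map (measurable_Y P) measurable_lab, h2]
    rfl
  · have h1 : ∀ᵐ s ∂(iid us), Good P (lab s) := by
      have h2 : ∀ᵐ ω ∂(Measure.map lab (zp us)), Good P ω := by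
        rw [map_lab]
        exact hG
      exact ae_of_ae_map measurable_lab.aemeasurable h2
    have h2 : ∀ᵐ s ∂(iid us), ∀ i : ℤ, ∃ T v, Dn s i T v := ae_done
    filter_upwards [h1, h2] with s hs hd
    obtain ⟨M, -, x, y, hx, hy, hw⟩ := hs 0 0
    choose T v hT using hd
    refine ⟨(Finset.Icc x y).sup (fun j => j.natAbs + T j), Filter.Eventually.of_forall ?_⟩
    intro s' hs'
    have key : ∀ j, x ≤ j → j ≤ y → lab s j = lab s' j := by
      intro j hj1 hj2
      have h3 : j.natAbs + T j ≤ (Finset.Icc x y).sup (fun j => j.natAbs + T j) :=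
        Finset.le_sup (f := fun j => j.natAbs + T j) (Finset.mem_Icc.2 ⟨hj1, hj2⟩)
      rw [lab_eq (hT j)]
      refine (lab_eq (Dn_congr ?_ (hT j))).symm
      intro i hi1 hi2
      exact (hs' i (by omega) (by omega)).symm
    exact (Y_win P hw key hx.le hy.le).symm

end law

section nofactor

theorem sh_equi {C : Type} {B : Type} {φ : (ℤ → C) → ℤ → B} {y : ℤ → C}
    (h : ∀ k : ℤ, φ (sh (k + 1) y) = sh 1 (φ (sh k y))) (k : ℤ) : φ (sh k y) = sh k (φ y) := by
  induction k using Int.induction_on with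
  | zero => rw [sh_zero, sh_zero]
  | succ n ih => rw [h, ih, sh_sh, add_comm]
  | pred n ih =>
    have h1 := h (-(n : ℤ) - 1)
    rw [sub_add_cancel, ih] at h1
    have h2 := congrArg (sh (-1)) h1
    rw [sh_sh, sh_sh, show (-1 : ℤ) + 1 = 0 by norm_num, sh_zero] at h2
    rw [← h2]
    congr 1
    ring

theorem bar_right {P : Par} {m : ℕ} {ω : ℤ → ℕ} (hg : Good P ω) (R : ℕ) :
    (∃ y : ℤ, R ≤ y ∧ Bar P m (tr (P.al m) (U P m ω) y)) ∧
    (∃ x : ℤ, x ≤ -(R : ℤ) ∧ Bar P m (tr (P.al m) (U P m ω) x)) := by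
  have key : ∀ {M : ℕ} {x y : ℤ}, m ≤ M → Win P M x y ω → x ≤ y →
      Bar P m (tr (P.al m) (U P m ω) x) ∧ Bar P m (tr (P.al m) (U P m ω) y) := by
    intro M x y hM hw hxy
    have hbx : Bar P M (ω x) := by rw [hw.1]; exact bnum_bar P M
    have hby : Bar P M (ω y) := by rw [hw.2.1]; exact bnum_bar P M
    have hB : ∀ i : ℤ, x ≤ i → i ≤ y → Bar P M (ω i) → Bar P m (tr (P.al m) (U P m ω) i) := by
      intro i h1 h2 hb m' hm'
      have h3 : U P m ω i = ω i := by
        rw [U_win P hM hw h1 h2]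
        exact comp_bar P (M := M) (M - m) m ω i (by omega) hb
      unfold tr
      rw [h3, Nat.testBit_mod_two_pow, Nat.testBit_mod_two_pow]
      have h4 := P.al_lt hm'
      obtain ⟨h5, h6⟩ := hb m' (by omega)
      rw [h5, h6]
      have h7 : P.al m' + 1 < P.al m := by omega
      simp [h7]
    exact ⟨hB x le_rfl hxy hbx, hB y hxy le_rfl hby⟩
  constructor
  · obtain ⟨M, hM, x, y, hx, hy, hw⟩ := hg R m
    exact ⟨y, hy.le, (key hM hw (by omega)).2⟩
  · obtain ⟨M, hM, x, y, hx, hy, hw⟩ := hg (-(R : ℤ)) m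
    exact ⟨x, hx.le, (key hM hw (by omega)).1⟩


section words

/-- word probabilities of the two-valued process `1[x_i ∈ A]` -/
noncomputable def wp {B : Type} [MeasurableSpace B] (ζ : Measure (ℤ → B)) (A : Set B) {n : ℕ}
    (w : Fin n → Bool) : ℝ :=
  ζ.real {x | ∀ k : Fin n, (x ((k : ℕ) : ℤ) ∈ A ↔ w k = true)}

variable {B : Type} [MeasurableSpace B] [Fintype B] [MeasurableSingletonClass B]
  (ζ : Measure (ℤ → B)) [IsProbabilityMeasure ζ] (A : Set B)

theorem word_measurable {n : ℕ} (w : Fin n → Bool) :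
    MeasurableSet {x : ℤ → B | ∀ k : Fin n, (x ((k : ℕ) : ℤ) ∈ A ↔ w k = true)} := by
  have h1 : {x : ℤ → B | ∀ k : Fin n, (x ((k : ℕ) : ℤ) ∈ A ↔ w k = true)} =
      ⋂ k : Fin n, {x : ℤ → B | (x ((k : ℕ) : ℤ) ∈ A ↔ w k = true)} := by
    ext x
    simp
  rw [h1]
  refine MeasurableSet.iInter fun k => ?_
  have h2 : MeasurableSet {b : B | (b ∈ A ↔ w k = true)} := (Set.toFinite _).measurableSet
  have h3 : Measurable fun x : ℤ → B => x ((k : ℕ) : ℤ) := measurable_pi_apply _
  exact h3 h2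

theorem wp_nonneg {n : ℕ} (w : Fin n → Bool) : 0 ≤ wp ζ A w := measureReal_nonneg

theorem wp_le {n : ℕ} (w : Fin n → Bool) : wp ζ A w ≤ 1 := measureReal_le_one

theorem wp_zero (w : Fin 0 → Bool) : wp ζ A w = 1 := by
  unfold wp
  have : {x : ℤ → B | ∀ k : Fin 0, (x ((k : ℕ) : ℤ) ∈ A ↔ w k = true)} = Set.univ := by
    ext x
    simp
  rw [this]
  simp

theorem wp_add {n : ℕ} (w : Fin n → Bool) :
    wp ζ A w = wp ζ A (Fin.snoc w true : Fin (n + 1) → Bool) +
      wp ζ A (Fin.snoc w false : Fin (n + 1) → Bool) := by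
  unfold wp
  rw [← measureReal_union]
  · congr 1
    ext x
    simp only [Set.mem_union, Set.mem_ofPred_eq]
    constructor
    · intro h
      by_cases hx : x ((n : ℕ) : ℤ) ∈ A
      · left
        intro k
        refine Fin.lastCases ?_ (fun k => ?_) k
        · simp [hx]
        · simp only [Fin.snoc_castSucc]
          exact h k
      · right
        intro k
        refine Fin.lastCases ?_ (fun k => ?_) k
        · simp [hx]
        · simp only [Fin.snoc_castSucc]
          exact h k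
    · rintro (h | h)
      · intro k
        have h5 := h (Fin.castSucc k)
        rw [Fin.snoc_castSucc] at h5
        exact h5
      · intro k
        have h5 := h (Fin.castSucc k)
        rw [Fin.snoc_castSucc] at h5
        exact h5
  · rw [Set.disjoint_left]
    intro x h1 h2
    have h3 := h1 (Fin.last n)
    have h4 := h2 (Fin.last n)
    simp only [Fin.snoc_last] at h3 h4
    have h5 : x ((n : ℕ) : ℤ) ∈ A := by
      have := h3.2
      simpa using this
    have h6 : x ((n : ℕ) : ℤ) ∉ A := by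
      intro h7
      have h8 := h4.1 h7
      simp at h8
    exact h6 h5
  · exact word_measurable A _

end words

open Pool.Agent.Y782.FF

/-- the law of the patterns -/
theorem pattern_law (Zb : (ℤ → ℕ) → ℤ → Bool) (hZm : Measurable Zb)
    (p : (n : ℕ) → (Fin n → Bool) → ℝ)
    (hp : ∀ n (w : Fin n → Bool), mu.real {ω | ∀ k : Fin n, Zb ω ((k : ℕ) : ℤ) = w k} = p n w)
    (n : ℕ) (z : Fin n → Option Bool) :
    mu.real {ω | ∀ k : Fin n, ∀ b, z k = some b → Zb ω ((k : ℕ) : ℤ) = b} = marg (p n) z := by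
  classical
  have h1 : {ω : ℤ → ℕ | ∀ k : Fin n, ∀ b, z k = some b → Zb ω ((k : ℕ) : ℤ) = b} =
      ⋃ w ∈ (Finset.univ.filter fun w : Fin n → Bool => agrees z w),
        {ω : ℤ → ℕ | ∀ k : Fin n, Zb ω ((k : ℕ) : ℤ) = w k} := by
    ext ω
    simp only [Set.mem_ofPred_eq, Set.mem_iUnion, Finset.mem_filter, Finset.mem_univ, true_and,
      exists_prop]
    constructor
    · intro h
      exact ⟨fun k => Zb ω ((k : ℕ) : ℤ), h, fun _ => rfl⟩
    · rintro ⟨w, hw1, hw2⟩ k b hb
      rw [hw2 k]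
      exact hw1 k b hb
  rw [h1, measureReal_biUnion_finset]
  · unfold marg
    rw [Finset.sum_filter]
    refine Finset.sum_congr rfl fun w _ => ?_
    rw [hp]
  · intro w _ w' _ hne
    rw [Function.onFun, Set.disjoint_left]
    intro ω h2 h3
    apply hne
    funext k
    rw [← h2 k, h3 k]
  · intro w _
    have h2 : {ω : ℤ → ℕ | ∀ k : Fin n, Zb ω ((k : ℕ) : ℤ) = w k} =
        ⋂ k : Fin n, {ω : ℤ → ℕ | Zb ω ((k : ℕ) : ℤ) = w k} := by
      ext ω
      simp
    rw [h2]
    refine MeasurableSet.iInter fun k => ?_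
    exact ((measurable_pi_apply ((k : ℕ) : ℤ)).comp hZm) (measurableSet_singleton (w k))

theorem no_factor (hDEF : S_DEF) (hPAT : S_PAT) {ι : Type}
    (Q : ι → (n : ℕ) → (Fin n → Bool) → ℝ) (hQ0 : ∀ i n w, 0 ≤ Q i n w)
    (hQ1 : ∀ i n, ∑ w, Q i n w ≤ 1) {P : Par} (h0 : 1 ≤ P.al 0) (hG : ∀ᵐ ω ∂mu, Good P ω)
    (hP : ∀ m : ℕ, ∃ (lam ρ ε : ℝ) (task : ℕ → Code (P.al m) × ι), 0 < lam ∧ lam < 1 ∧ 0 < ρ ∧
      0 < ε ∧ ε ≤ 1 / 2 ∧
      (1 - 1 / ((m : ℝ) + 2)) ^ (th (P.al m) / (1 + th (P.al m)) / 2)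
        < (1 - th (P.al m) ^ 2) * lam ^ 3 ∧
      (∃ x : ℝ, 0 ≤ x ∧ x ≤ 1 ∧ ∀ n : ℕ,
        lam ^ n ≤ (1 - x) ^ n * (x * (1 / 2 : ℝ) ^ (2 ^ P.al m)) ^ (⌊ρ * n⌋₊)) ∧
      (∃ x : ℝ, 0 < x ∧ x ≤ 1 ∧ ∀ n : ℕ, (1 + x) ^ n * lam ^ n ≤ x ^ (⌊ε * n⌋₊)) ∧
      (∀ t N, ∃ n, N ≤ n ∧ task n = t) ∧
      P.D m = tgt' Q (P.al m) lam ε task ∧
      mu.real {ω | (enc (P.al m) (U P m ω 0)).2 ≠ (enc (P.al m) (ω 0)).2} ≤ ρ / 4)
    {B : Type} [Fintype B] [MeasurableSpace B] [MeasurableSingletonClass B]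
    (ζ : Measure (ℤ → B)) (h : IsFinitaryFactor ζ (lawY P)) (A : Set B)
    (hpos : ∃ h : ℝ, 0 < h ∧ ∀ (n : ℕ) (w : Fin (n + 1) → Bool),
      h * wp ζ A (Fin.init w) ≤ wp ζ A w)
    (hdom : ∀ lam : ℝ, 0 < lam → lam < 1 → ∃ (i : ι) (C : ℝ), 1 ≤ C ∧
      ∀ (n : ℕ) (w : Fin n → Bool), wp ζ A w * lam ^ n ≤ C * Q i n w) : False := by
  classical
  obtain ⟨φ, hφm, hφe, hφl, hφf⟩ := h
  set φ' := hφm.mk φ with hφ'
  have hφ'm : Measurable φ' := hφm.measurable_mk
  have hae1 : ∀ᵐ y ∂(lawY P), φ y = φ' y := hφm.ae_eq_mk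
  haveI hζ : IsProbabilityMeasure ζ := by
    rw [← hφl]
    exact Measure.isProbabilityMeasure_map hφm
  obtain ⟨h, hh0, hh⟩ := hpos
  obtain ⟨m, hm⟩ : ∃ m : ℕ, 1 / ((m : ℝ) + 2) ≤ h := by
    obtain ⟨m, hm⟩ := exists_nat_one_div_lt hh0
    have h1 : 1 / ((m : ℝ) + 2) ≤ 1 / ((m : ℝ) + 1) :=
      one_div_le_one_div_of_le (by positivity) (by linarith)
    exact ⟨m, by linarith⟩
  obtain ⟨lam, ρ, ε, task, hlam0, hlam1, hρ, hε, hε1, hnum, hx1, hx2, htask, hD, hclose⟩ := hP m
  obtain ⟨i, C, hC, hdm⟩ := hdom lam hlam0 hlam1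
  -- the relation to the shifts
  have hE : ∀ᵐ ω ∂mu, ∀ k : ℤ, φ (sh k (Y P ω)) = sh k (φ (Y P ω)) ∧
      φ (sh k (Y P ω)) = φ' (sh k (Y P ω)) := by
    have h1 : ∀ᵐ ω ∂mu, φ (sh 1 (Y P ω)) = sh 1 (φ (Y P ω)) := ae_law P hφe
    have h2 : ∀ᵐ ω ∂mu, φ (Y P ω) = φ' (Y P ω) := ae_law P hae1
    filter_upwards [mu_ae_sh h1, mu_ae_sh h2] with ω h3 h4 k
    simp only [Y_sh] at h3 h4
    refine ⟨sh_equi (fun k => ?_) k, h4 k⟩
    have := h3 k
    rw [sh_sh, add_comm] at this
    exact this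
  have hh1 : (0 : ℝ) < 1 / ((m : ℝ) + 2) := by positivity
  have hh2 : 1 / ((m : ℝ) + 2) < 1 := by
    rw [div_lt_one (by positivity)]
    have : (0 : ℝ) ≤ m := Nat.cast_nonneg m
    linarith
  have hmc : Measurable fun ω => φ' (Y P ω) := hφ'm.comp (measurable_Y P)
  have hmap : ζ = Measure.map (fun ω => φ' (Y P ω)) mu := by
    have h3 : Measure.map φ' (lawY P) = ζ := by
      rw [← Measure.map_congr hae1, hφl]
    rw [← h3]
    unfold lawY
    rw [Measure.map_map hφ'm (measurable_Y P)]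
    rfl
  set Zb : (ℤ → ℕ) → ℤ → Bool := fun ω i => decide (φ' (Y P ω) i ∈ A) with hZb
  have hZm : Measurable Zb := by
    refine measurable_pi_lambda _ fun i => ?_
    have h1 : Measurable fun c : B => decide (c ∈ A) := measurable_of_finite _
    exact h1.comp ((measurable_pi_apply i).comp (hφ'm.comp (measurable_Y P)))
  have hwl : ∀ n (w : Fin n → Bool), mu.real {ω | ∀ k : Fin n, Zb ω ((k : ℕ) : ℤ) = w k} =
      wp ζ A w := by
    intro n w
    unfold wp
    have h4 : {ω : ℤ → ℕ | ∀ k : Fin n, Zb ω ((k : ℕ) : ℤ) = w k} =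
        (fun ω => φ' (Y P ω)) ⁻¹' {x : ℤ → B | ∀ k : Fin n, (x ((k : ℕ) : ℤ) ∈ A ↔ w k = true)} := by
      ext ω
      simp only [Set.mem_ofPred_eq, Set.mem_preimage, hZb]
      refine forall_congr' fun k => ?_
      cases hwk : w k <;> simp
    rw [h4]
    conv_rhs => rw [hmap]
    rw [measureReal_def, measureReal_def, Measure.map_apply hmc (word_measurable A w)]
  have hpat := pattern_law Zb hZm (fun n w => wp ζ A w) hwl
  refine hDEF ι Q hQ0 hQ1 P m hG (1 / ((m : ℝ) + 2)) lam ρ ε hh1 hh2 hlam0 hlam1 hρ hε hε1 hnum hx1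
    hx2 task htask hD hclose Zb hZm ?_ ?_ ?_ ?_
  · filter_upwards [hE] with ω hω k
    have h1 : φ' (Y P (sh k ω)) 0 = φ' (Y P ω) k := by
      rw [Y_sh, ← (hω k).2, (hω k).1]
      have h2 := (hω 0).2
      rw [sh_zero] at h2
      rw [← h2]
      show φ (Y P ω) (0 + k) = _
      rw [zero_add]
    simp only [hZb, h1]
  · intro n z
    rw [hpat n z]
    refine hPAT (fun n w => wp ζ A w) (fun n w => wp_nonneg ζ A w)
      (fun n w => wp_le ζ A w) (fun n w => wp_add ζ A w) (1 / ((m : ℝ) + 2)) hh1 hh2.le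
      ?_ n z
    intro n w
    refine le_trans ?_ (hh n w)
    exact mul_le_mul_of_nonneg_right hm (wp_nonneg ζ A _)
  · refine ⟨i, C, hC, fun n z => ?_⟩
    rw [hpat n z]
    unfold marg
    rw [Finset.sum_mul, Finset.mul_sum]
    refine Finset.sum_le_sum fun w _ => ?_
    by_cases hw : agrees z w
    · rw [if_pos hw, if_pos hw]
      exact hdm n w
    · rw [if_neg hw, if_neg hw]
      simp
  · have hf : ∀ᵐ ω ∂mu, ∃ r : ℕ, ∀ᵐ y ∂(lawY P),
        (∀ i : ℤ, -(r : ℤ) ≤ i → i ≤ (r : ℤ) → y i = Y P ω i) → φ y 0 = φ (Y P ω) 0 := ae_law P hφf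
    have hm1 : 1 ≤ P.al m := le_trans h0 (P.al_le (Nat.zero_le m))
    filter_upwards [hf, hG, hE] with ω h1 hg hω
    obtain ⟨R, hR⟩ := h1
    have hR' := ae_law P hR
    obtain ⟨⟨y, hy1, hy2⟩, ⟨x, hx1, hx2⟩⟩ := bar_right (m := m) hg R
    refine ⟨max x.natAbs y.natAbs, ?_⟩
    filter_upwards [hR', hG, hE] with ω' h2 hg' hω' hagree
    have h3 : ∀ j, x ≤ j → j ≤ y → tr (P.al m) (U P m ω) j = tr (P.al m) (U P m ω') j := by
      intro j hj1 hj2
      have h4 := hagree j (by omega) (by omega)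
      have h5 := congrArg Fin.val h4
      exact h5.symm
    have h6 : φ (Y P ω') 0 = φ (Y P ω) 0 := by
      apply h2
      intro i hi1 hi2
      exact (Y_det P hm1 hg hg' hx2 hy2 h3 (by omega) (by omega)).symm
    have h7 := (hω 0).2
    have h8 := (hω' 0).2
    rw [sh_zero] at h7 h8
    simp only [hZb, ← h7, ← h8, h6]

end nofactor

open Pool.Agent.Y782.FF

section iidpart

/-- the indicator of the symbol `b` -/
noncomputable def ind {B : Type} (b : B) (c : B) : Fin 2 := by
  classical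
  exact if c = b then 1 else 0

theorem ind_eq {B : Type} (b c : B) (e : Fin 2) : ind b c = e ↔ (c = b ↔ e = 1) := by
  unfold ind
  by_cases h : c = b
  · rw [if_pos h]
    constructor
    · rintro rfl
      exact ⟨fun _ => rfl, fun _ => h⟩
    · intro h1
      exact (h1.1 h).symm
  · rw [if_neg h]
    constructor
    · rintro rfl
      exact ⟨fun h1 => absurd h1 h, fun h1 => absurd h1 (by decide)⟩
    · intro h1
      have h2 : e ≠ 1 := fun h3 => h (h1.2 h3)
      omega

theorem wordProb_iid {B : Type} [Fintype B] [MeasurableSpace B] [MeasurableSingletonClass B]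
    (q : Measure B) [IsProbabilityMeasure q] (b : B) {n : ℕ} (w : Fin n → Fin 2) :
    wordProb (iid q) (ind b) w = ∏ k, (if w k = 1 then q.real {b} else 1 - q.real {b}) := by
  unfold wordProb
  have h1 := zp_box_inj q (fun k : Fin n => ((k : ℕ) : ℤ))
    (fun x y hxy => Fin.ext (Int.ofNat_inj.1 hxy))
    (fun k => if w k = 1 then {b} else {b}ᶜ) (fun k => by
      split_ifs
      · exact measurableSet_singleton b
      · exact (measurableSet_singleton b).compl)
  have h2 : {x : ℤ → B | ∀ k : Fin n, ind b (x ((k : ℕ) : ℤ)) = w k} =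
      {x : ℤ → B | ∀ k : Fin n, x ((k : ℕ) : ℤ) ∈ (if w k = 1 then ({b} : Set B) else {b}ᶜ)} := by
    ext x
    simp only [Set.mem_ofPred_eq]
    refine forall_congr' fun k => ?_
    rw [ind_eq]
    by_cases hk : w k = 1 <;> simp [hk]
  rw [h2]
  have h3 : (iid q).real {x : ℤ → B | ∀ k : Fin n,
      x ((k : ℕ) : ℤ) ∈ (if w k = 1 then ({b} : Set B) else {b}ᶜ)} = _ := h1
  rw [h3]
  refine Finset.prod_congr rfl fun k _ => ?_
  split_ifs
  · rfl
  · rw [probReal_compl_eq_one_sub (measurableSet_singleton b)]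

theorem iid_positive {B : Type} [Fintype B] [MeasurableSpace B] [MeasurableSingletonClass B]
    (q : Measure B) [IsProbabilityMeasure q] (b : B) (h0 : 0 < q.real {b}) (h1 : q.real {b} < 1) :
    PositiveTransitions (iid q) (ind b) := by
  refine ⟨min (q.real {b}) (1 - q.real {b}), lt_min h0 (by linarith), fun n w => ?_⟩
  rw [wordProb_iid, wordProb_iid, Fin.prod_univ_castSucc, mul_comm]
  have h2 : 0 ≤ ∏ k : Fin n, (if w (Fin.castSucc k) = 1 then q.real {b} else 1 - q.real {b}) := by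
    refine Finset.prod_nonneg fun k _ => ?_
    split_ifs <;> linarith
  refine mul_le_mul_of_nonneg_left ?_ h2
  split_ifs
  · exact min_le_left _ _
  · exact min_le_right _ _

theorem iid_continuous {B : Type} [Fintype B] [MeasurableSpace B] [MeasurableSingletonClass B]
    (q : Measure B) [IsProbabilityMeasure q] (b : B) (h0 : 0 < q.real {b}) (h1 : q.real {b} < 1) :
    ContinuousTransitions (iid q) (ind b) := by
  intro δ hδ
  refine ⟨0, fun n w => ?_⟩
  have hnn : ∀ {l : ℕ} (v : Fin l → Fin 2), 0 ≤ wordProb (iid q) (ind b) v := by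
    intro l v
    rw [wordProb_iid]
    refine Finset.prod_nonneg fun k _ => ?_
    split_ifs <;> linarith
  have h2 : wordProb (iid q) (ind b) w =
      wordProb (iid q) (ind b) (fun k : Fin (n + 0) => w ⟨k, by omega⟩) *
      wordProb (iid q) (ind b) (fun k : Fin (0 + 1) => w ⟨n + k, by omega⟩) := by
    rw [wordProb_iid, wordProb_iid, wordProb_iid]
    have h3 : ∏ k : Fin (n + (0 + 1)), (if w k = 1 then q.real {b} else 1 - q.real {b}) =
        (∏ k : Fin n, (if w (Fin.castSucc k) = 1 then q.real {b} else 1 - q.real {b})) *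
          (if w (Fin.last n) = 1 then q.real {b} else 1 - q.real {b}) :=
      Fin.prod_univ_castSucc _
    rw [h3]
    congr 1
    rw [Fin.prod_univ_one]
    rfl
  have h3 : wordProb (iid q) (ind b) (fun k : Fin 0 => w ⟨n + k, by omega⟩) = 1 := by
    rw [wordProb_iid]
    simp
  rw [h3, mul_one, ← h2]
  have h4 := hnn w
  nlinarith

end iidpart

section lumping

variable {B : Type} [MeasurableSpace B] [Fintype B] [MeasurableSingletonClass B]
  (ζ : Measure (ℤ → B)) [IsProbabilityMeasure ζ] {N : ℕ} (f : B → Fin N)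

theorem fword_measurable {n : ℕ} (w : Fin n → Fin N) :
    MeasurableSet {x : ℤ → B | ∀ k : Fin n, f (x ((k : ℕ) : ℤ)) = w k} := by
  have h1 : {x : ℤ → B | ∀ k : Fin n, f (x ((k : ℕ) : ℤ)) = w k} =
      ⋂ k : Fin n, {x : ℤ → B | f (x ((k : ℕ) : ℤ)) = w k} := by
    ext x
    simp
  rw [h1]
  refine MeasurableSet.iInter fun k => ?_
  have h2 : MeasurableSet {b : B | f b = w k} := (Set.toFinite _).measurableSet
  have h3 : Measurable fun x : ℤ → B => x ((k : ℕ) : ℤ) := measurable_pi_apply _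
  exact h3 h2

theorem wordProb_zero (w : Fin 0 → Fin N) : wordProb ζ f w = 1 := by
  unfold wordProb
  have : {x : ℤ → B | ∀ k : Fin 0, f (x ((k : ℕ) : ℤ)) = w k} = Set.univ := by
    ext x
    simp
  rw [this]
  simp

theorem wordProb_sum {n : ℕ} (w : Fin n → Fin N) :
    wordProb ζ f w = ∑ b, wordProb ζ f (Fin.snoc w b : Fin (n + 1) → Fin N) := by
  classical
  unfold wordProb
  rw [← measureReal_biUnion_finset]
  · congr 1
    ext x
    simp only [Set.mem_ofPred_eq, Set.mem_iUnion, Finset.mem_univ, exists_prop, true_and]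
    constructor
    · intro h
      refine ⟨f (x ((n : ℕ) : ℤ)), fun k => ?_⟩
      refine Fin.lastCases ?_ (fun k => ?_) k
      · rw [Fin.snoc_last]
        rfl
      · rw [Fin.snoc_castSucc]
        exact h k
    · rintro ⟨b, hb⟩ k
      have h5 := hb (Fin.castSucc k)
      rw [Fin.snoc_castSucc] at h5
      exact h5
  · intro b _ b' _ hne
    rw [Function.onFun, Set.disjoint_left]
    intro x h1 h2
    have h3 := h1 (Fin.last n)
    have h4 := h2 (Fin.last n)
    rw [Fin.snoc_last] at h3 h4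
    exact hne (h3.symm.trans h4)
  · intro b _
    exact fword_measurable f _

theorem wp_lump (g : Fin N → Bool) {n : ℕ} (w' : Fin n → Bool) :
    wp ζ {b | g (f b) = true} w' =
      lump g (fun w : Fin n → Fin N => wordProb ζ f w) w' := by
  classical
  unfold wp
  have h1 : {x : ℤ → B | ∀ k : Fin n,
      (x ((k : ℕ) : ℤ) ∈ {b | g (f b) = true} ↔ w' k = true)} =
      ⋃ w ∈ (Finset.univ.filter fun w : Fin n → Fin N => ∀ k, g (w k) = w' k),
        {x : ℤ → B | ∀ k : Fin n, f (x ((k : ℕ) : ℤ)) = w k} := by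
    ext x
    simp only [Set.mem_ofPred_eq, Set.mem_iUnion, Finset.mem_filter, Finset.mem_univ, true_and,
      exists_prop]
    constructor
    · intro h
      refine ⟨fun k => f (x ((k : ℕ) : ℤ)), fun k => ?_, fun _ => rfl⟩
      have h2 := h k
      rcases h3 : w' k with _ | _
      · rw [h3] at h2
        rcases h4 : g (f (x ((k : ℕ) : ℤ))) with _ | _
        · rfl
        · exact absurd (h2.1 h4) (by simp)
      · rw [h3] at h2
        exact h2.2 rfl
    · rintro ⟨w, hw1, hw2⟩ k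
      rw [hw2 k, hw1 k]
  rw [h1, measureReal_biUnion_finset]
  · unfold lump
    rw [Finset.sum_filter]
    rfl
  · intro w _ w₂ _ hne
    rw [Function.onFun, Set.disjoint_left]
    intro x h2 h3
    apply hne
    funext k
    rw [← h2 k, h3 k]
  · intro w _
    exact fword_measurable f w

end lumping

theorem lump_pos {N n : ℕ} (g : Fin N → Bool) (hg : ∀ c : Bool, ∃ b, g b = c)
    (R : (Fin n → Fin N) → ℝ) (R' : (Fin (n + 1) → Fin N) → ℝ) (h : ℝ) (hR' : ∀ w, 0 ≤ R' w)
    (hh : ∀ w, h * R (Fin.init w) ≤ R' w) (w' : Fin (n + 1) → Bool) :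
    h * lump g R (Fin.init w') ≤ lump g R' w' := by
  classical
  obtain ⟨b0, hb0⟩ := hg (w' (Fin.last n))
  have hnn : ∀ w : Fin (n + 1) → Fin N, 0 ≤ (if (∀ k, g (w k) = w' k) then R' w else 0) := by
    intro w
    split_ifs
    · exact hR' w
    · exact le_rfl
  have h1 : lump g R' w' = ∑ b : Fin N, ∑ v : Fin n → Fin N,
      (if (∀ k, g ((Fin.snoc v b : Fin (n + 1) → Fin N) k) = w' k) then
        R' (Fin.snoc v b : Fin (n + 1) → Fin N) else 0) := by
    unfold lump
    rw [← (Fin.snocEquiv (fun _ : Fin (n + 1) => Fin N)).sum_comp, Fintype.sum_prod_type]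
    refine Finset.sum_congr rfl fun b _ => Finset.sum_congr rfl fun v _ => ?_
    show (if (∀ k, g ((Fin.snoc v b : Fin (n + 1) → Fin N) k) = w' k) then
        R' (Fin.snoc v b : Fin (n + 1) → Fin N) else 0) = _
    congr
  rw [h1]
  refine le_trans ?_ (Finset.single_le_sum (f := fun b : Fin N => ∑ v : Fin n → Fin N,
      (if (∀ k, g ((Fin.snoc v b : Fin (n + 1) → Fin N) k) = w' k) then
        R' (Fin.snoc v b : Fin (n + 1) → Fin N) else 0))
      (fun b _ => Finset.sum_nonneg fun v _ => hnn _) (Finset.mem_univ b0))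
  unfold lump
  rw [Finset.mul_sum]
  refine Finset.sum_le_sum fun v _ => ?_
  by_cases hv : ∀ k, g (v k) = Fin.init w' k
  · rw [if_pos hv, if_pos]
    · have h2 := hh (Fin.snoc v b0 : Fin (n + 1) → Fin N)
      rw [Fin.init_snoc] at h2
      exact h2
    · intro k
      refine Fin.lastCases ?_ (fun i => ?_) k
      · rw [Fin.snoc_last]
        exact hb0
      · rw [Fin.snoc_castSucc]
        exact hv i
  · rw [if_neg hv, mul_zero]
    exact hnn _

section final

/-- the countable family of weights: the given laws and all kernels of finite order -/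
noncomputable def ref (𝒬 : ℕ → Measure (ℤ → ℕ)) (N : ℕ) :
    ℕ ⊕ KerN N → (n : ℕ) → (Fin n → Fin N) → ℝ
  | Sum.inl i, n, w => (𝒬 i).real {x | ∀ k : Fin n, x ((k : ℕ) : ℤ) = ((w k : Fin N) : ℕ)}
  | Sum.inr κ, n, w => kwN κ n w

/-- the index set: alphabet size, lumping map, reference law -/
abbrev Idx : Type := Σ N : ℕ, (Fin N → Bool) × (ℕ ⊕ KerN N)

instance (N : ℕ) : Countable (KerN N) := by
  unfold KerN
  infer_instance

instance : Countable Idx := by
  unfold Idx
  infer_instance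

instance : Nonempty Idx := ⟨⟨0, fun _ => true, Sum.inl 0⟩⟩

/-- the lumped family -/
noncomputable def fam (𝒬 : ℕ → Measure (ℤ → ℕ)) (j : Idx) (n : ℕ) (w' : Fin n → Bool) : ℝ :=
  lump j.2.1 (ref 𝒬 j.1 j.2.2 n) w'

theorem ref_nonneg (𝒬 : ℕ → Measure (ℤ → ℕ)) (N : ℕ) (j : ℕ ⊕ KerN N) (n : ℕ)
    (w : Fin n → Fin N) : 0 ≤ ref 𝒬 N j n w := by
  rcases j with i | κ
  · exact measureReal_nonneg
  · exact kwN_nonneg κ n w

theorem ref_sum (𝒬 : ℕ → Measure (ℤ → ℕ)) [∀ i, IsProbabilityMeasure (𝒬 i)] (N : ℕ)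
    (j : ℕ ⊕ KerN N) (n : ℕ) : ∑ w, ref 𝒬 N j n w ≤ 1 := by
  classical
  rcases j with i | κ
  · show ∑ w : Fin n → Fin N, (𝒬 i).real {x | ∀ k : Fin n, x ((k : ℕ) : ℤ) = ((w k : Fin N) : ℕ)} ≤ 1
    rw [← measureReal_biUnion_finset]
    · exact measureReal_le_one
    · intro w _ w' _ hne
      rw [Function.onFun, Set.disjoint_left]
      intro x h2 h3
      apply hne
      funext k
      exact Fin.ext ((h2 k).symm.trans (h3 k))
    · intro w _
      have h2 : {x : ℤ → ℕ | ∀ k : Fin n, x ((k : ℕ) : ℤ) = ((w k : Fin N) : ℕ)} =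
          ⋂ k : Fin n, {x : ℤ → ℕ | x ((k : ℕ) : ℤ) = ((w k : Fin N) : ℕ)} := by
        ext x
        simp
      rw [h2]
      refine MeasurableSet.iInter fun k => ?_
      have h3 : Measurable fun x : ℤ → ℕ => x ((k : ℕ) : ℤ) := measurable_pi_apply _
      exact h3 (measurableSet_singleton ((w k : Fin N) : ℕ))
  · exact kwN_sum κ n

theorem fam_nonneg (𝒬 : ℕ → Measure (ℤ → ℕ)) (j : Idx) (n : ℕ) (w' : Fin n → Bool) :
    0 ≤ fam 𝒬 j n w' := lump_nonneg _ _ (ref_nonneg 𝒬 _ _ n) _

theorem fam_sum (𝒬 : ℕ → Measure (ℤ → ℕ)) [∀ i, IsProbabilityMeasure (𝒬 i)] (j : Idx) (n : ℕ) :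
    ∑ w', fam 𝒬 j n w' ≤ 1 := by
  unfold fam
  rw [lump_sum]
  exact ref_sum 𝒬 _ _ n

end final

/-- **Theorem.** For every sequence `𝒬` of laws of processes there is a non-trivial two-symbol process
`ν`, a finitary factor of an i.i.d. process with eight symbols, such that every i.i.d. process that is
a finitary factor of `ν` is trivial, and, more generally, for every finitary factor `ζ` of `ν` over a
finite alphabet `B` and every `f : B → {0, …, N - 1}`, `N ≥ 2`, such that the process `f(x_i)` has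
uniformly positive transition probabilities, these are not continuous and `f(x_i)` is not dominated
by `𝒬`. -/
theorem result (𝒬 : ℕ → Measure (ℤ → ℕ)) [∀ i, IsProbabilityMeasure (𝒬 i)] :
    ∃ ν : Measure (ℤ → Bool), IsProcess ν ∧ ¬ IsTrivial ν ∧
      IsFinitaryFactor ν (iid (PMF.uniformOfFintype (Bool × Bool × Bool)).toMeasure) ∧
      (∀ (B : Type) [Fintype B] [MeasurableSpace B] [MeasurableSingletonClass B]
        (q : Measure B) [IsProbabilityMeasure q],
        IsFinitaryFactor (iid q) ν → IsTrivial (iid q)) ∧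
      ∀ (B : Type) [Fintype B] [MeasurableSpace B] [MeasurableSingletonClass B]
        (ζ : Measure (ℤ → B)), IsFinitaryFactor ζ ν →
        ∀ (N : ℕ) (f : B → Fin N), 2 ≤ N → PositiveTransitions ζ f →
          ¬ ContinuousTransitions ζ f ∧ ¬ DominatedBy ζ f 𝒬 := by
  obtain ⟨P, h0, hG, hP⟩ := Pool.Agent.Y975.FF.par Idx (fam 𝒬)
  have hprob : ∀ (B : Type) [Fintype B] [MeasurableSpace B] [MeasurableSingletonClass B]
      (ζ : Measure (ℤ → B)), IsFinitaryFactor ζ (lawY P) → IsProbabilityMeasure ζ := by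
    intro B _ _ _ ζ hf
    obtain ⟨φ, hφm, -, hφl, -⟩ := hf
    rw [← hφl]
    exact Measure.isProbabilityMeasure_map hφm
  have key : ∀ (B : Type) [Fintype B] [MeasurableSpace B] [MeasurableSingletonClass B]
      (ζ : Measure (ℤ → B)), IsFinitaryFactor ζ (lawY P) → ∀ (N : ℕ) (f : B → Fin N), 2 ≤ N →
      PositiveTransitions ζ f →
      (∀ lam : ℝ, 0 < lam → lam < 1 → ∃ (j : ℕ ⊕ KerN N) (C : ℝ), 1 ≤ C ∧
      ∀ (n : ℕ) (w : Fin n → Fin N), wordProb ζ f w * lam ^ n ≤ C * ref 𝒬 N j n w) → False := by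
    intro B _ _ _ ζ hf N f hN hpos hdom
    haveI hζ := hprob B ζ hf
    obtain ⟨g, hg⟩ : ∃ g : Fin N → Bool, ∀ c : Bool, ∃ b : Fin N, g b = c := by
      refine ⟨fun b => decide ((b : ℕ) = 0), fun c => ?_⟩
      rcases c with _ | _
      · exact ⟨⟨1, by omega⟩, by simp⟩
      · exact ⟨⟨0, by omega⟩, by simp⟩
    refine no_factor (Pool.Agent.Y905.FF.deft Pool.Agent.Y983.FF.good) Pool.Agent.Y693.FF.pat
      (fam 𝒬) (fam_nonneg 𝒬) (fam_sum 𝒬) h0 hG hP ζ hf
      {b | g (f b) = true} ?_ ?_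
    · obtain ⟨h, hh0, hh⟩ := hpos
      refine ⟨h, hh0, fun n w' => ?_⟩
      rw [wp_lump ζ f g, wp_lump ζ f g]
      exact lump_pos _ hg _ _ h (fun w => measureReal_nonneg) (fun w => hh n w) w'
    · intro lam hl0 hl1
      obtain ⟨j, C, hC, hj⟩ := hdom lam hl0 hl1
      refine ⟨⟨N, g, j⟩, C, hC, fun n w' => ?_⟩
      rw [wp_lump ζ f g]
      exact lump_mono _ _ _ _ _ (hj n) w'
  have hcont : ∀ (B : Type) [Fintype B] [MeasurableSpace B] [MeasurableSingletonClass B]
        (ζ : Measure (ℤ → B)), IsFinitaryFactor ζ (lawY P) → ∀ (N : ℕ) (f : B → Fin N), 2 ≤ N →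
          PositiveTransitions ζ f → ¬ ContinuousTransitions ζ f := by
    intro B _ _ _ ζ hf N f hN hpos hc
    haveI hζ := hprob B ζ hf
    refine key B ζ hf N f hN hpos fun lam hl0 hl1 => ?_
    obtain ⟨κ, C, hC, hκ⟩ := domN (by omega : 1 ≤ N) (fun n w => wordProb ζ f w)
      (fun n w => measureReal_nonneg) (fun n w => measureReal_le_one)
      (fun n w => wordProb_sum ζ f w) hpos
      (by rw [wordProb_zero]; exact one_pos) hc lam hl0 hl1
    exact ⟨Sum.inr κ, C, hC, hκ⟩
  refine ⟨lawY P, isProcess_law P, nontrivial_law P h0, source_factor P hG, ?_, ?_⟩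
  · intro B _ _ _ q _ hf
    by_contra hnt
    obtain ⟨b, hb0, hb1⟩ := exists_mid q hnt
    exact hcont B (iid q) hf 2 (ind b) le_rfl (iid_positive q b hb0 hb1)
      (iid_continuous q b hb0 hb1)
  · intro B _ _ _ ζ hf N f hN hpos
    refine ⟨hcont B ζ hf N f hN hpos, fun hd => ?_⟩
    haveI hζ := hprob B ζ hf
    refine key B ζ hf N f hN hpos fun lam hl0 hl1 => ?_
    obtain ⟨i, C, hC⟩ := hd lam hl0 hl1
    refine ⟨Sum.inl i, max C 1, le_max_right _ _, fun n w => ?_⟩
    refine le_trans (hC n w) ?_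
    exact mul_le_mul_of_nonneg_right (le_max_left _ _) measureReal_nonneg

end Pool.Agent.Results.MP_a0cf29_an.NoGMeasureFactor
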